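import Pool.Agent.Y187.WQ.Stm

/-!
# Job WQ-GOOD: nearly tracial corners of factors are good (helper475)
-/

set_option autoImplicit false

open scoped ComplexOrder InnerProductSpace
open Finset Filter

noncomputable section

namespace Pool.Agent.Y475.WQ

open Pool.Agent.Y187.WQ
open H759R2.Kad (IsFac IsPr Prj Fnt)

section

variable {H : Type} [NormedAddCommGroup H] [InnerProductSpace ℂ H] [CompleteSpace H]

/-- square roots stay in the algebra -/
theorem sqrt_mem (N : VonNeumannAlgebra H) (a : H →L[ℂ] H) (ha : a ∈ N) : CFC.sqrt a ∈ N := by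
  rw [← VonNeumannAlgebra.commutant_commutant N, VonNeumannAlgebra.mem_commutant_iff]
  intro g hg
  have h1 : Commute a g := VonNeumannAlgebra.mem_commutant_iff.1 hg a ha
  have h2 : Commute (CFC.sqrt a) g := h1.cfcₙ_nnreal NNReal.sqrt
  exact h2.symm.eq

theorem nrm (x : H →L[ℂ] H) (v : H) : ‖x v‖ ^ 2 = (⟪v, (star x * x) v⟫_ℂ).re := by
  have h1 : ⟪v, (star x * x) v⟫_ℂ = ⟪x v, x v⟫_ℂ := by
    rw [ContinuousLinearMap.star_eq_adjoint]
    exact ContinuousLinearMap.adjoint_inner_right x v (x v)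
  rw [h1, inner_self_eq_norm_sq_to_K]
  norm_cast

theorem one_u (N : VonNeumannAlgebra H) (q : H →L[ℂ] H) (n : ℕ) (ξ : Fin n → H) (hq : IsPr q)
    (hNT : NT N q n ξ) (a : H →L[ℂ] H) (ha : a ∈ N) (ha0 : 0 ≤ a) (haq : q * a * q = a)
    (u : H →L[ℂ] H) (hu : u ∈ unitary (H →L[ℂ] H)) (huN : u ∈ N) (huq : u * q = q * u) :
    ∑ j, (⟪ξ j, a (ξ j)⟫_ℂ).re ≤ 2 * ∑ j, (⟪ξ j, (u * a * star u) (ξ j)⟫_ℂ).re := by
  obtain ⟨b, hb⟩ : ∃ b, b = CFC.sqrt a := ⟨_, rfl⟩
  have hbb : b * b = a := by rw [hb]; exact CFC.sqrt_mul_sqrt_self a ha0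
  have hbs : star b = b := by
    rw [hb]
    exact (CFC.sqrt_nonneg a).isSelfAdjoint.star_eq
  have hbN : b ∈ N := by rw [hb]; exact sqrt_mem N a ha
  have haq1 : a * q = a := by
    calc a * q = q * a * q * q := by rw [haq]
      _ = q * a * (q * q) := by rw [mul_assoc]
      _ = a := by rw [hq.2, haq]
  have hbq : b * q = b := by
    have h1 : star (b * (1 - q)) * (b * (1 - q)) = 0 := by
      rw [star_mul, star_sub, star_one, hq.1, hbs]
      calc (1 - q) * b * (b * (1 - q)) = (1 - q) * ((b * b) * (1 - q)) := by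
            simp only [mul_assoc]
        _ = 0 := by rw [hbb, mul_sub, mul_one, haq1, sub_self, mul_zero]
    have h2 := (CStarRing.star_mul_self_eq_zero_iff _).1 h1
    rw [mul_sub, mul_one, sub_eq_zero] at h2
    exact h2.symm
  have hqb : q * b = b := by
    have h1 := congrArg star hbq
    rwa [star_mul, hbs, hq.1] at h1
  have hus : star u * q = q * star u := by
    have h1 := congrArg star huq
    rw [star_mul, star_mul, hq.1] at h1
    exact h1.symm
  have huu : star u * u = 1 := (Unitary.mem_iff.1 hu).1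
  have hx : q * (b * star u) * q = b * star u := by
    calc q * (b * star u) * q = (q * b) * (star u * q) := by simp only [mul_assoc]
      _ = (b * q) * star u := by rw [hqb, hus, mul_assoc]
      _ = b * star u := by rw [hbq]
  have hxN : b * star u ∈ N := mul_mem hbN (star_mem huN)
  have h1 := hNT.tr _ hxN hx
  have h2 : ∀ j, ‖star (b * star u) (ξ j)‖ ^ 2 = (⟪ξ j, a (ξ j)⟫_ℂ).re := by
    intro j
    rw [nrm]
    congr 3
    rw [star_star, star_mul, star_star, hbs]
    calc b * star u * (u * b) = b * (star u * u) * b := by simp only [mul_assoc]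
      _ = a := by rw [huu, mul_one, hbb]
  have h3 : ∀ j, ‖(b * star u) (ξ j)‖ ^ 2 = (⟪ξ j, (u * a * star u) (ξ j)⟫_ℂ).re := by
    intro j
    rw [nrm]
    congr 3
    rw [star_mul, star_star, hbs]
    calc u * b * (b * star u) = u * (b * b) * star u := by simp only [mul_assoc]
      _ = _ := by rw [hbb]
  simp only [h2, h3] at h1
  exact h1

end

theorem t_good : W_dix → W_good := by
  intro hdix H _ _ _ N hF q hqN hq n ξ hNT
  refine ⟨Set.range ξ, ?_, ?_⟩
  · intro x hx hxq h0
    exact hNT.fa x hx hxq (fun j => h0 _ ⟨j, rfl⟩)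
  · rintro _ ⟨j, rfl⟩
    set P : ℝ := ∑ j, ‖q (ξ j)‖ ^ 2 with hP
    have hP0 : 0 ≤ P := Finset.sum_nonneg (fun j _ => by positivity)
    refine ⟨2 * P + 1, by linarith, ?_⟩
    intro a haN ha0 haq ε hε
    have has : star a = a := ha0.isSelfAdjoint.star_eq
    obtain ⟨α, l, hl⟩ := hdix H N hF q hqN hq a haN has haq (ε / 2) (by linarith)
    refine ⟨α, ?_⟩
    letI := α.fin
    set A : H →L[ℂ] H := α.ap a with hA
    have hAsum : A = ∑ k, ((α.t k : ℝ) : ℂ) • (α.u k * a * star (α.u k)) := rfl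
    have hAs : star A = A := by
      rw [hAsum, star_sum]
      refine Finset.sum_congr rfl (fun k _ => ?_)
      rw [star_smul, star_mul, star_mul, star_star, has, mul_assoc]
      congr 1
      exact Complex.conj_ofReal _
    have husq : ∀ k, star (α.u k) * q = q * star (α.u k) := by
      intro k
      have h1 := congrArg star (α.hq k)
      rw [star_mul, star_mul, hq.1] at h1
      exact h1.symm
    have hAq : q * A * q = A := by
      rw [hAsum, Finset.mul_sum, Finset.sum_mul]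
      refine Finset.sum_congr rfl (fun k _ => ?_)
      rw [mul_smul_comm, smul_mul_assoc]
      congr 1
      calc q * (α.u k * a * star (α.u k)) * q = (q * α.u k) * a * (star (α.u k) * q) := by
            simp only [mul_assoc]
        _ = α.u k * (q * a * q) * star (α.u k) := by
            rw [← α.hq k, husq k]
            simp only [mul_assoc]
        _ = _ := by rw [haq]
    have hψA : (∑ j, (⟪ξ j, a (ξ j)⟫_ℂ).re) / 2 ≤ ∑ j, (⟪ξ j, A (ξ j)⟫_ℂ).re := by
      have h1 : ∀ j, (⟪ξ j, A (ξ j)⟫_ℂ).re =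
          ∑ k, α.t k * (⟪ξ j, (α.u k * a * star (α.u k)) (ξ j)⟫_ℂ).re := by
        intro j
        rw [hAsum, ContinuousLinearMap.sum_apply, inner_sum, Complex.re_sum]
        refine Finset.sum_congr rfl (fun k _ => ?_)
        rw [ContinuousLinearMap.smul_apply, inner_smul_right, Complex.re_ofReal_mul]
      rw [Finset.sum_congr rfl (fun j _ => h1 j), Finset.sum_comm]
      have h2 : ∀ k, α.t k * ((∑ j, (⟪ξ j, a (ξ j)⟫_ℂ).re) / 2) ≤
          ∑ j, α.t k * (⟪ξ j, (α.u k * a * star (α.u k)) (ξ j)⟫_ℂ).re := by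
        intro k
        rw [← Finset.mul_sum]
        refine mul_le_mul_of_nonneg_left ?_ (α.ht k)
        have := one_u N q n ξ hq hNT a haN ha0 haq (α.u k) (α.hu k) (α.hN k) (α.hq k)
        linarith
      have h3 := Finset.sum_le_sum (fun k (_ : k ∈ (Finset.univ : Finset α.ι)) => h2 k)
      rw [← Finset.sum_mul, α.hs, one_mul] at h3
      exact h3
    have hqsa : ∀ v w : H, ⟪q v, w⟫_ℂ = ⟪v, q w⟫_ℂ := by
      intro v w
      have h1 := ContinuousLinearMap.adjoint_inner_left q w v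
      rw [← ContinuousLinearMap.star_eq_adjoint, hq.1] at h1
      exact h1
    have hqq : ∀ v : H, q (q v) = q v := by
      intro v
      have := congrArg (fun T : H →L[ℂ] H => T v) hq.2
      exact this
    have hAv : ∀ v : H, A v = q (A (q v)) := by
      intro v
      have := congrArg (fun T : H →L[ℂ] H => T v) hAq
      exact this.symm
    -- bounds of `A` on the range of `q`
    have hbd : ∀ v : H, |(⟪A (q v), q v⟫_ℂ).re - l * ‖q v‖ ^ 2| ≤ ε / 2 * ‖q v‖ ^ 2 := by
      intro v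
      have h1 : (⟪(A - ((l : ℝ) : ℂ) • q) (q v), q v⟫_ℂ).re =
          (⟪A (q v), q v⟫_ℂ).re - l * ‖q v‖ ^ 2 := by
        rw [ContinuousLinearMap.sub_apply, ContinuousLinearMap.smul_apply, hqq, inner_sub_left,
          inner_smul_left, Complex.sub_re, Complex.conj_ofReal, Complex.re_ofReal_mul,
          inner_self_eq_norm_sq_to_K]
        norm_cast
      rw [← h1]
      refine (Complex.abs_re_le_norm _).trans ((norm_inner_le_norm _ _).trans ?_)
      calc ‖(A - ((l : ℝ) : ℂ) • q) (q v)‖ * ‖q v‖ ≤ (‖A - ((l : ℝ) : ℂ) • q‖ * ‖q v‖) * ‖q v‖ :=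
            mul_le_mul_of_nonneg_right (ContinuousLinearMap.le_opNorm _ _) (norm_nonneg _)
        _ ≤ (ε / 2 * ‖q v‖) * ‖q v‖ := by gcongr
        _ = _ := by ring
    have hre : ∀ v : H, (⟪v, A v⟫_ℂ).re = (⟪A (q v), q v⟫_ℂ).re := by
      intro v
      rw [hAv v, ← hqsa, ← inner_conj_symm, Complex.conj_re]
    have hup : ∑ j, (⟪ξ j, A (ξ j)⟫_ℂ).re ≤ (l + ε / 2) * P := by
      rw [hP, Finset.mul_sum]
      refine Finset.sum_le_sum (fun j _ => ?_)
      rw [hre]
      have := (abs_le.1 (hbd (ξ j))).2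
      linarith
    have hann : ∀ j, 0 ≤ (⟪ξ j, a (ξ j)⟫_ℂ).re := by
      intro j
      have h1 := ((ContinuousLinearMap.nonneg_iff_isPositive a).1 ha0)
      exact h1.re_inner_nonneg_right (ξ j)
    have hale : (⟪ξ j, a (ξ j)⟫_ℂ).re ≤ ∑ j, (⟪ξ j, a (ξ j)⟫_ℂ).re :=
      Finset.single_le_sum (f := fun j => (⟪ξ j, a (ξ j)⟫_ℂ).re) (fun j _ => hann j)
        (Finset.mem_univ j)
    rw [ContinuousLinearMap.le_def, ContinuousLinearMap.isPositive_def']
    constructor
    · rw [IsSelfAdjoint, star_sub, hAs, star_smul, hq.1]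
      congr 2
      exact Complex.conj_ofReal _
    · intro v
      rw [ContinuousLinearMap.reApplyInnerSelf_apply, ContinuousLinearMap.sub_apply,
        ContinuousLinearMap.smul_apply, inner_sub_left, inner_smul_left, Complex.conj_ofReal]
      have h1 : ⟪A v, v⟫_ℂ = ⟪A (q v), q v⟫_ℂ := by rw [hAv v, hqsa]
      have h2 : ⟪q v, v⟫_ℂ = ⟪q v, q v⟫_ℂ := by rw [← hqq v, hqsa, hqq]
      rw [h1, h2]
      have h3 : RCLike.re (⟪A (q v), q v⟫_ℂ -
          (((⟪ξ j, a (ξ j)⟫_ℂ).re / (2 * P + 1) - ε : ℝ) : ℂ) * ⟪q v, q v⟫_ℂ) =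
          (⟪A (q v), q v⟫_ℂ).re - ((⟪ξ j, a (ξ j)⟫_ℂ).re / (2 * P + 1) - ε) * ‖q v‖ ^ 2 := by
        rw [inner_self_eq_norm_sq_to_K]
        change (⟪A (q v), q v⟫_ℂ - _).re = _
        rw [Complex.sub_re, Complex.re_ofReal_mul]
        norm_cast
      rw [h3]
      have h4 := (abs_le.1 (hbd v)).1
      rcases eq_or_lt_of_le hP0 with hPz | hPpos
      · have h5 : q = 0 := by
          refine hNT.fa q hqN hq.2 (fun j => ?_)
          have h6 := (Finset.sum_eq_zero_iff_of_nonneg (s := (Finset.univ : Finset (Fin n)))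
            (f := fun j => ‖q (ξ j)‖ ^ 2) (fun j _ => by positivity)).1 hPz.symm j (Finset.mem_univ j)
          exact norm_eq_zero.1 (pow_eq_zero_iff (by norm_num) |>.1 h6)
        rw [h5]
        simp
      · have h5 : (∑ j, (⟪ξ j, a (ξ j)⟫_ℂ).re) / (2 * P) ≤ l + ε / 2 := by
          rw [div_le_iff₀ (by linarith)]
          linarith
        have h6 : (⟪ξ j, a (ξ j)⟫_ℂ).re / (2 * P + 1) ≤
            (∑ j, (⟪ξ j, a (ξ j)⟫_ℂ).re) / (2 * P) := by
          refine div_le_div₀ ((hann j).trans hale) hale (by linarith) (by linarith)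
        have h7 : 0 ≤ ‖q v‖ ^ 2 := by positivity
        nlinarith [mul_nonneg (sub_nonneg.2 (h6.trans h5)) h7]

end Pool.Agent.Y475.WQ
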